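import Pool.Agent.H97.GEN.Defs

/-!
# The linear range of Theorem X (MP_75f39d): definitions

`J = V ⊔ (J ∖ V)`; `Q ⊆ J ∖ V` are blocks that meet only themselves and members of `V`.
`FF J V` are the unions of generators that need a member of `V`.
-/

set_option autoImplicit false

namespace Pool.Agent.H83.LIN

open Finset Pool.Agent.H97.GEN

variable {α : Type*} [DecidableEq α]

/-- The situation: `V ⊆ J`, and a member of `Q ⊆ J ∖ V` meets only itself and members of `V`. -/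
structure LSetup (J V Q : Finset (Finset α)) : Prop where
  VJ : V ⊆ J
  QJ : Q ⊆ J \ V
  meet : ∀ G ∈ Q, ∀ G' ∈ J, G' ∉ V → G' ≠ G → Disjoint G' G
  nonempty : ∀ G ∈ J, G.Nonempty

/-- The blocks that `v` meets. -/
def Nb (Q : Finset (Finset α)) (v : Finset α) : Finset (Finset α) :=
  Q.filter fun i => ¬ Disjoint v i

/-- Number of the `A ∈ FF J V` with `x ∈ A` that are not `A' ∪ i` with `A' ∈ FF J V`, `x ∉ A'`. -/
def gam (J V : Finset (Finset α)) (i : Finset α) (x : α) : ℕ :=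
  ((FF J V).filter fun A => x ∈ A ∧ ∀ A' ∈ FF J V, x ∉ A' → A' ∪ i ≠ A).card

/-- The members with `v` inside that miss a block of `v`. -/
def WW (J V Q : Finset (Finset α)) (v : Finset α) : Finset (Finset α) :=
  (FF J V).filter fun A => v ⊆ A ∧ ∃ i ∈ Nb Q v, ¬ i ⊆ A

/-- `v` is critical at `A` via the block `i`, and another block of `v` is not inside `A`. -/
def IsCrit (Q : Finset (Finset α)) (v i A : Finset α) : Prop :=
  ¬ v ⊆ A ∧ v \ A ⊆ i ∧ ∃ i0 ∈ Nb Q v, i0 ≠ i ∧ ¬ i0 ⊆ A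

instance (Q : Finset (Finset α)) (v i A : Finset α) : Decidable (IsCrit Q v i A) := by
  unfold IsCrit; infer_instance

def critI (J V Q : Finset (Finset α)) (v i : Finset α) : Finset (Finset α) :=
  (FF J V).filter fun A => IsCrit Q v i A

def critL (J V Q : Finset (Finset α)) (v : Finset α) : Finset (Finset α) :=
  (FF J V).filter fun A => ∃ i ∈ Q, IsCrit Q v i A

/-- The sets `E ⊆ V` of generators inside `A` that generate `A` with the members of `J ∖ V` in `A`. -/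
def valid (J V : Finset (Finset α)) (A : Finset α) : Finset (Finset (Finset α)) :=
  (K V A).powerset.filter fun E => E.sup id ∪ (K (J \ V) A).sup id = A

/-- `U E`: the blocks of `v` whose point `x i` is not in the union of `E`. -/
def UU (Q : Finset (Finset α)) (v : Finset α) (x : Finset α → α) (E : Finset (Finset α)) :
    Finset (Finset α) :=
  (Nb Q v).filter fun i => x i ∉ E.sup id

/-- `t*(A)`. -/
def tst (J V Q : Finset (Finset α)) (v : Finset α) (x : Finset α → α) (A : Finset α) : ℕ :=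
  (valid J V A).sup fun E => (UU Q v x E).card

/-- The members `A` with a block `i0` of `v`, not inside `A`, whose point `x i0` is in `A`. -/
def HH (J V Q : Finset (Finset α)) (v : Finset α) (x : Finset α → α) : Finset (Finset α) :=
  (FF J V).filter fun A => ∃ i ∈ Nb Q v, ¬ i ⊆ A ∧ x i ∈ A

lemma mem_Nb {Q : Finset (Finset α)} {v i : Finset α} : i ∈ Nb Q v ↔ i ∈ Q ∧ ¬ Disjoint v i := by
  simp [Nb]

lemma mem_FF {J V : Finset (Finset α)} {A : Finset α} :
    A ∈ FF J V ↔ A ∈ unions J ∧ A ∉ unions (J \ V) := by simp [FF]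

lemma mem_WW {J V Q : Finset (Finset α)} {v A : Finset α} :
    A ∈ WW J V Q v ↔ A ∈ FF J V ∧ v ⊆ A ∧ ∃ i ∈ Nb Q v, ¬ i ⊆ A := by simp [WW]

lemma mem_critI {J V Q : Finset (Finset α)} {v i A : Finset α} :
    A ∈ critI J V Q v i ↔ A ∈ FF J V ∧ IsCrit Q v i A := by simp [critI]

lemma mem_critL {J V Q : Finset (Finset α)} {v A : Finset α} :
    A ∈ critL J V Q v ↔ A ∈ FF J V ∧ ∃ i ∈ Q, IsCrit Q v i A := by simp [critL]

lemma mem_valid {J V : Finset (Finset α)} {A : Finset α} {E : Finset (Finset α)} :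
    E ∈ valid J V A ↔ E ⊆ K V A ∧ E.sup id ∪ (K (J \ V) A).sup id = A := by simp [valid]

lemma mem_UU {Q : Finset (Finset α)} {v : Finset α} {x : Finset α → α} {E : Finset (Finset α)}
    {i : Finset α} : i ∈ UU Q v x E ↔ i ∈ Nb Q v ∧ x i ∉ E.sup id := by simp [UU]

lemma mem_HH {J V Q : Finset (Finset α)} {v : Finset α} {x : Finset α → α} {A : Finset α} :
    A ∈ HH J V Q v x ↔ A ∈ FF J V ∧ ∃ i ∈ Nb Q v, ¬ i ⊆ A ∧ x i ∈ A := by simp [HH]

section basic

variable {J V Q : Finset (Finset α)}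

lemma LSetup.iJ (hS : LSetup J V Q) {i : Finset α} (hi : i ∈ Q) : i ∈ J :=
  (Finset.mem_sdiff.1 (hS.QJ hi)).1

lemma LSetup.iV (hS : LSetup J V Q) {i : Finset α} (hi : i ∈ Q) : i ∉ V :=
  (Finset.mem_sdiff.1 (hS.QJ hi)).2

lemma LSetup.disj (hS : LSetup J V Q) {i j : Finset α} (hi : i ∈ Q) (hj : j ∈ Q) (h : i ≠ j) :
    Disjoint i j :=
  hS.meet j hj i (hS.iJ hi) (hS.iV hi) h

/-- A point of the block `i` that is in `A`, with `i` not inside `A`, is in a member of `V` inside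
`A`. -/
lemma LSetup.ex_v (hS : LSetup J V Q) {i A : Finset α} (hi : i ∈ Q) (hA : A ∈ FF J V)
    (hiA : ¬ i ⊆ A) {p : α} (hp : p ∈ i) (hpA : p ∈ A) : ∃ v ∈ V, v ⊆ A ∧ p ∈ v := by
  obtain ⟨G, hG, hGA, hpG⟩ := (mem_iff (mem_FF.1 hA).1 p).1 hpA
  refine ⟨G, ?_, hGA, hpG⟩
  by_contra hGV
  have hne : G ≠ i := fun h => hiA (h ▸ hGA)
  exact Finset.disjoint_left.1 (hS.meet i hi G hG hGV hne) hpG hp

/-- Adding a block keeps `unions J`. -/
lemma LSetup.union_mem' (hS : LSetup J V Q) {i A : Finset α} (hi : i ∈ Q) (hA : A ∈ unions J) :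
    A ∪ i ∈ unions J := union_mem hA (self_mem (hS.iJ hi))

/-- In `unions (J \ V)` a block is inside or disjoint. -/
lemma LSetup.sub_or_disj (hS : LSetup J V Q) {i B : Finset α} (hi : i ∈ Q)
    (hB : B ∈ unions (J \ V)) : i ⊆ B ∨ Disjoint B i := by
  by_cases h : i ⊆ B
  · exact Or.inl h
  right
  rw [Finset.disjoint_left]
  intro p hpB hpi
  obtain ⟨G, hG, hGB, hpG⟩ := (mem_iff hB p).1 hpB
  rw [Finset.mem_sdiff] at hG
  have hne : G ≠ i := fun h' => h (h' ▸ hGB)
  exact Finset.disjoint_left.1 (hS.meet i hi G hG.1 hG.2 hne) hpG hpi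

/-- If `A ∪ i ∈ unions (J \ V)` and `A` does not meet `i`, then `A ∈ unions (J \ V)`. -/
lemma LSetup.of_union (hS : LSetup J V Q) {i A : Finset α} (hi : i ∈ Q)
    (hA : A ∪ i ∈ unions (J \ V)) (hd : Disjoint A i) : A ∈ unions (J \ V) := by
  rw [mem_unions]
  apply Finset.Subset.antisymm (supK_subset _ _)
  intro p hp
  obtain ⟨G, hG, hGA, hpG⟩ := (mem_iff hA p).1 (Finset.mem_union_left _ hp)
  rw [mem_sup_id]
  refine ⟨G, mem_K.2 ⟨hG, ?_⟩, hpG⟩
  rw [Finset.mem_sdiff] at hG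
  have hne : G ≠ i := fun h' => Finset.disjoint_left.1 hd hp (h' ▸ hpG)
  have hdG := hS.meet i hi G hG.1 hG.2 hne
  intro q hq
  rcases Finset.mem_union.1 (hGA hq) with h | h
  · exact h
  · exact absurd h (Finset.disjoint_left.1 hdG hq)

lemma K_valid {A : Finset α} (hVJ : V ⊆ J) (hA : A ∈ unions J) : K V A ∈ valid J V A := by
  rw [mem_valid]
  refine ⟨Finset.Subset.refl _, ?_⟩
  apply Finset.Subset.antisymm
  · exact Finset.union_subset (supK_subset _ _) (supK_subset _ _)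
  · intro p hp
    obtain ⟨G, hG, hGA, hpG⟩ := (mem_iff hA p).1 hp
    rw [Finset.mem_union, mem_sup_id, mem_sup_id]
    by_cases hV : G ∈ V
    · exact Or.inl ⟨G, mem_K.2 ⟨hV, hGA⟩, hpG⟩
    · exact Or.inr ⟨G, mem_K.2 ⟨Finset.mem_sdiff.2 ⟨hG, hV⟩, hGA⟩, hpG⟩

end basic

end Pool.Agent.H83.LIN
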