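import Pool.Agent.H83.LIN.Select

/-!
# Numerics of the linear range

`sk`: sum of the `k` smallest values (layer cake form); `cost_le`: the cost of a vertex at a level is
at most `.99` times the increment of `psi`; `layer`: the conclusion.
-/

set_option autoImplicit false

namespace Pool.Agent.H83.LIN

open Finset

/-- The sum of the `k` smallest values (layer cake); `L` is a bound for the values. -/
def sk {κ : Type*} (N : Finset κ) (γ : κ → ℕ) (L k : ℕ) : ℕ :=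
  ∑ l ∈ Finset.range L, (k - (N.filter fun i => γ i ≤ l).card)

lemma sum_eq_layer {κ : Type*} (N : Finset κ) (γ : κ → ℕ) (L : ℕ) (hL : ∀ i ∈ N, γ i ≤ L) :
    ∑ i ∈ N, γ i = ∑ l ∈ Finset.range L, (N.filter fun i => l < γ i).card := by
  have h1 : ∀ i ∈ N, γ i = ∑ l ∈ Finset.range L, if l < γ i then 1 else 0 := by
    intro i hi
    rw [← Finset.card_filter]
    have : (Finset.range L).filter (fun l => l < γ i) = Finset.range (γ i) := by
      ext l
      rw [Finset.mem_filter, Finset.mem_range, Finset.mem_range]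
      have := hL i hi
      omega
    rw [this, Finset.card_range]
  rw [Finset.sum_congr rfl h1, Finset.sum_comm]
  apply Finset.sum_congr rfl
  intro l _
  rw [Finset.card_filter]

lemma exists_smallest {κ : Type*} [DecidableEq κ] (N : Finset κ) (γ : κ → ℕ) (k : ℕ)
    (hk : k ≤ N.card) :
    ∃ S ⊆ N, S.card = k ∧ ∀ i ∈ S, ∀ j ∈ N \ S, γ i ≤ γ j := by
  induction k with
  | zero => exact ⟨∅, Finset.empty_subset _, rfl, fun i hi => absurd hi (Finset.notMem_empty _)⟩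
  | succ k ih =>
    obtain ⟨S, hS, hc, hm⟩ := ih (by omega)
    have hne : (N \ S).Nonempty := by
      rw [← Finset.card_pos, Finset.card_sdiff_of_subset hS]
      omega
    obtain ⟨m, hmN, hmin⟩ := Finset.exists_min_image (N \ S) γ hne
    have hmN' := Finset.mem_sdiff.1 hmN
    refine ⟨insert m S, Finset.insert_subset hmN'.1 hS, ?_, ?_⟩
    · rw [Finset.card_insert_of_notMem hmN'.2, hc]
    · intro i hi j hj
      have hj' : j ∈ N \ S := by
        rw [Finset.mem_sdiff] at hj ⊢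
        exact ⟨hj.1, fun h => hj.2 (Finset.mem_insert_of_mem h)⟩
      rcases Finset.mem_insert.1 hi with h | h
      · rw [h]
        exact hmin j hj'
      · exact hm i h j hj'

theorem exists_sk {κ : Type*} [DecidableEq κ] (N : Finset κ) (γ : κ → ℕ) (L k : ℕ)
    (hL : ∀ i ∈ N, γ i ≤ L) (hk : k ≤ N.card) :
    ∃ S ⊆ N, S.card = k ∧ ∑ i ∈ S, γ i ≤ sk N γ L k := by
  obtain ⟨S, hS, hc, hm⟩ := exists_smallest N γ k hk
  refine ⟨S, hS, hc, ?_⟩
  rw [sum_eq_layer S γ L fun i hi => hL i (hS hi), sk]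
  apply Finset.sum_le_sum
  intro l _
  rcases (S.filter fun i => l < γ i).eq_empty_or_nonempty with h0 | ⟨i0, hi0⟩
  · rw [h0, Finset.card_empty]
    exact Nat.zero_le _
  · rw [Finset.mem_filter] at hi0
    have hsub : (N.filter fun i => γ i ≤ l) ⊆ S.filter fun i => ¬ l < γ i := by
      intro j hj
      rw [Finset.mem_filter] at hj ⊢
      refine ⟨?_, by omega⟩
      by_contra hjS
      have := hm i0 hi0.1 j (Finset.mem_sdiff.2 ⟨hj.1, hjS⟩)
      omega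
    have h1 := Finset.card_le_card hsub
    have h2 := Finset.card_filter_add_card_filter_not (s := S) (p := fun i => l < γ i)
    omega

/-- The cost of `v` at a level. -/
noncomputable def cost (N y : ℕ) : ℝ :=
  5 / 4 * ((4 - y : ℕ) : ℝ)
    + 3 / 2 * ∑ t ∈ Finset.Ico 2 (N / 4 + 1), (1 / 2 : ℝ) ^ t * ((4 * t - y : ℕ) : ℝ)
    + 3 / 2 * ((N / 4 : ℕ) + 1) * (1 / 2 : ℝ) ^ (N / 4) * ((N - y : ℕ) : ℝ)

lemma geo (a b : ℕ) (h : a ≤ b) :
    ∑ t ∈ Finset.Ico a b, (1 / 2 : ℝ) ^ t = 2 * (1 / 2 : ℝ) ^ a - 2 * (1 / 2 : ℝ) ^ b := by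
  induction b, h using Nat.le_induction with
  | base => simp
  | succ b hb ih =>
    rw [Finset.sum_Ico_succ_top hb, ih, pow_succ]
    ring

lemma anti (a b : ℕ) (ha : 1 ≤ a) (h : a ≤ b) :
    (b : ℝ) * (1 / 2 : ℝ) ^ b ≤ a * (1 / 2 : ℝ) ^ a := by
  induction b, h using Nat.le_induction with
  | base => exact le_refl _
  | succ b hb ih =>
    refine le_trans ?_ ih
    rw [pow_succ]
    push_cast
    have h1 : (1 : ℝ) ≤ b := by exact_mod_cast ha.trans hb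
    have h2 : (0 : ℝ) < (1 / 2 : ℝ) ^ b := by positivity
    nlinarith

lemma numA (q : ℕ) (hq : 1 ≤ q) :
    3 / 2 * ((q : ℝ) + 1) * (1 / 2 : ℝ) ^ q ≤ 99 / 25 * (8 / 9 : ℝ) ^ (4 * q + 2) := by
  have big : ∀ q : ℕ, 4 ≤ q →
      3 / 2 * ((q : ℝ) + 1) * (1 / 2 : ℝ) ^ q ≤ 99 / 25 * (8 / 9 : ℝ) ^ (4 * q + 2) := by
    intro q hq
    induction q, hq using Nat.le_induction with
    | base => norm_num
    | succ q hq ih =>
      have h1 : (8 / 9 : ℝ) ^ (4 * (q + 1) + 2) = (8 / 9 : ℝ) ^ (4 * q + 2) * (8 / 9 : ℝ) ^ 4 := by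
        rw [← pow_add]
        congr 1
      rw [h1, pow_succ]
      push_cast
      have h2 : (4 : ℝ) ≤ q := by exact_mod_cast hq
      have h3 : (0 : ℝ) < (1 / 2 : ℝ) ^ q := by positivity
      have h4 : ((q : ℝ) + 1 + 1) * (1 / 2) ≤ ((q : ℝ) + 1) * (8 / 9 : ℝ) ^ 4 := by
        norm_num
        linarith
      calc 3 / 2 * ((q : ℝ) + 1 + 1) * ((1 / 2 : ℝ) ^ q * (1 / 2))
          = 3 / 2 * (1 / 2 : ℝ) ^ q * (((q : ℝ) + 1 + 1) * (1 / 2)) := by ring
        _ ≤ 3 / 2 * (1 / 2 : ℝ) ^ q * (((q : ℝ) + 1) * (8 / 9 : ℝ) ^ 4) :=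
            mul_le_mul_of_nonneg_left h4 (by positivity)
        _ = (3 / 2 * ((q : ℝ) + 1) * (1 / 2 : ℝ) ^ q) * (8 / 9 : ℝ) ^ 4 := by ring
        _ ≤ (99 / 25 * (8 / 9 : ℝ) ^ (4 * q + 2)) * (8 / 9 : ℝ) ^ 4 :=
            mul_le_mul_of_nonneg_right ih (by positivity)
        _ = _ := by ring
  by_cases h : 4 ≤ q
  · exact big q h
  · have : q = 1 ∨ q = 2 ∨ q = 3 := by omega
    rcases this with rfl | rfl | rfl <;> norm_num

lemma numB (q : ℕ) (hq : 1 ≤ q) :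
    3 / 4 * ((q : ℝ) + 3) * (1 / 2 : ℝ) ^ q ≤ 99 / 25 * (8 / 9 : ℝ) ^ (4 * q + 3) := by
  have big : ∀ q : ℕ, 2 ≤ q →
      3 / 4 * ((q : ℝ) + 3) * (1 / 2 : ℝ) ^ q ≤ 99 / 25 * (8 / 9 : ℝ) ^ (4 * q + 3) := by
    intro q hq
    induction q, hq using Nat.le_induction with
    | base => norm_num
    | succ q hq ih =>
      have h1 : (8 / 9 : ℝ) ^ (4 * (q + 1) + 3) = (8 / 9 : ℝ) ^ (4 * q + 3) * (8 / 9 : ℝ) ^ 4 := by
        rw [← pow_add]
        congr 1
      rw [h1, pow_succ]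
      push_cast
      have h2 : (2 : ℝ) ≤ q := by exact_mod_cast hq
      have h3 : (0 : ℝ) < (1 / 2 : ℝ) ^ q := by positivity
      have h4 : ((q : ℝ) + 1 + 3) * (1 / 2) ≤ ((q : ℝ) + 3) * (8 / 9 : ℝ) ^ 4 := by
        norm_num
        linarith
      calc 3 / 4 * ((q : ℝ) + 1 + 3) * ((1 / 2 : ℝ) ^ q * (1 / 2))
          = 3 / 4 * (1 / 2 : ℝ) ^ q * (((q : ℝ) + 1 + 3) * (1 / 2)) := by ring
        _ ≤ 3 / 4 * (1 / 2 : ℝ) ^ q * (((q : ℝ) + 3) * (8 / 9 : ℝ) ^ 4) :=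
            mul_le_mul_of_nonneg_left h4 (by positivity)
        _ = (3 / 4 * ((q : ℝ) + 3) * (1 / 2 : ℝ) ^ q) * (8 / 9 : ℝ) ^ 4 := by ring
        _ ≤ (99 / 25 * (8 / 9 : ℝ) ^ (4 * q + 3)) * (8 / 9 : ℝ) ^ 4 :=
            mul_le_mul_of_nonneg_right ih (by positivity)
        _ = _ := by ring
  by_cases h : 2 ≤ q
  · exact big q h
  · have : q = 1 := by omega
    rw [this]
    norm_num

lemma sub_step (k y : ℕ) :
    ((k - y : ℕ) : ℝ) = ((k - (y + 1) : ℕ) : ℝ) + if y < k then 1 else 0 := by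
  split_ifs with h
  · have : k - y = (k - (y + 1)) + 1 := by omega
    rw [this]
    push_cast
    ring
  · have h1 : k - y = 0 := by omega
    have h2 : k - (y + 1) = 0 := by omega
    rw [h1, h2]
    simp

/-- The increment of the cost. -/
lemma cost_step (N y : ℕ) (hy : y < N) :
    cost N y = cost N (y + 1) + (5 / 4 * (if y < 4 then 1 else 0)
      + 3 / 2 * ∑ t ∈ Finset.Ico 2 (N / 4 + 1), (1 / 2 : ℝ) ^ t * (if y < 4 * t then 1 else 0)
      + 3 / 2 * ((N / 4 : ℕ) + 1) * (1 / 2 : ℝ) ^ (N / 4)) := by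
  have h1 : ∑ t ∈ Finset.Ico 2 (N / 4 + 1), (1 / 2 : ℝ) ^ t * ((4 * t - y : ℕ) : ℝ)
      = ∑ t ∈ Finset.Ico 2 (N / 4 + 1), (1 / 2 : ℝ) ^ t * ((4 * t - (y + 1) : ℕ) : ℝ)
        + ∑ t ∈ Finset.Ico 2 (N / 4 + 1), (1 / 2 : ℝ) ^ t * (if y < 4 * t then 1 else 0) := by
    rw [← Finset.sum_add_distrib]
    apply Finset.sum_congr rfl
    intro t _
    rw [sub_step (4 * t) y]
    ring
  unfold cost
  rw [h1, sub_step 4 y, sub_step N y, if_pos hy]
  ring

lemma incr_le (N y : ℕ) (hN : 4 ≤ N) (hy : y < N) :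
    5 / 4 * (if y < 4 then (1 : ℝ) else 0)
      + 3 / 2 * ∑ t ∈ Finset.Ico 2 (N / 4 + 1), (1 / 2 : ℝ) ^ t * (if y < 4 * t then 1 else 0)
      + 3 / 2 * ((N / 4 : ℕ) + 1) * (1 / 2 : ℝ) ^ (N / 4) ≤ 99 / 25 * (8 / 9 : ℝ) ^ y := by
  set T := N / 4 with hT
  have hT1 : 1 ≤ T := by omega
  by_cases h4 : y < 4
  · rw [if_pos h4]
    have h1 : ∑ t ∈ Finset.Ico 2 (T + 1), (1 / 2 : ℝ) ^ t * (if y < 4 * t then 1 else 0)
        ≤ ∑ t ∈ Finset.Ico 2 (T + 1), (1 / 2 : ℝ) ^ t := by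
      apply Finset.sum_le_sum
      intro t _
      have : (0 : ℝ) ≤ (1 / 2 : ℝ) ^ t := by positivity
      split_ifs <;> simp
    have h2 := geo 2 (T + 1) (by omega)
    rw [h2, pow_succ (1 / 2 : ℝ) T] at h1
    have h3 := anti 1 T (le_refl _) hT1
    have h5 : (8 / 9 : ℝ) ^ 3 ≤ (8 / 9 : ℝ) ^ y :=
      pow_le_pow_of_le_one (by norm_num) (by norm_num) (by omega)
    norm_num at h5 h3 h1 ⊢
    nlinarith
  · rw [if_neg h4]
    set q := y / 4 with hq
    have hq1 : 1 ≤ q := by omega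
    have hqT : q ≤ T := by omega
    have h1 : ∑ t ∈ Finset.Ico 2 (T + 1), (1 / 2 : ℝ) ^ t * (if y < 4 * t then 1 else 0)
        ≤ ∑ t ∈ Finset.Ico (q + 1) (T + 1), (1 / 2 : ℝ) ^ t := by
      have h2 : ∀ t ∈ Finset.Ico 2 (T + 1), (1 / 2 : ℝ) ^ t * (if y < 4 * t then 1 else 0)
          = if y < 4 * t then (1 / 2 : ℝ) ^ t else 0 := by
        intro t _
        split_ifs <;> simp
      rw [Finset.sum_congr rfl h2, ← Finset.sum_filter]
      apply Finset.sum_le_sum_of_subset_of_nonneg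
      · intro t ht
        rw [Finset.mem_filter, Finset.mem_Ico] at ht
        rw [Finset.mem_Ico]
        omega
      · intro t _ _
        positivity
    have h2 := geo (q + 1) (T + 1) (by omega)
    rw [h2, pow_succ (1 / 2 : ℝ) T, pow_succ (1 / 2 : ℝ) q] at h1
    rcases Nat.lt_or_ge q T with hlt | hge
    · have h3 := anti (q + 1) T (by omega) hlt
      have h5 := numB q hq1
      have h6 : (8 / 9 : ℝ) ^ (4 * q + 3) ≤ (8 / 9 : ℝ) ^ y :=
        pow_le_pow_of_le_one (by norm_num) (by norm_num) (by omega)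
      rw [pow_succ (1 / 2 : ℝ) q] at h3
      push_cast at h3
      nlinarith
    · have hqe : q = T := by omega
      have h5 := numA q hq1
      have h6 : (8 / 9 : ℝ) ^ (4 * q + 2) ≤ (8 / 9 : ℝ) ^ y :=
        pow_le_pow_of_le_one (by norm_num) (by norm_num) (by omega)
      rw [hqe] at h1 h5 h6
      nlinarith

theorem cost_le (N y : ℕ) (hN : 4 ≤ N) (hy : y ≤ N) :
    cost N y ≤ 99 / 100 * (psi N - psi y) := by
  obtain ⟨d, hd⟩ : ∃ d, N = y + d := ⟨N - y, by omega⟩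
  induction d generalizing y with
  | zero =>
    have hyN : y = N := by omega
    rw [hyN]
    have h1 : ∀ t ∈ Finset.Ico 2 (N / 4 + 1), (1 / 2 : ℝ) ^ t * ((4 * t - N : ℕ) : ℝ) = 0 := by
      intro t ht
      rw [Finset.mem_Ico] at ht
      have : 4 * t - N = 0 := by omega
      rw [this]
      simp
    unfold cost
    rw [Finset.sum_congr rfl h1]
    have h2 : 4 - N = 0 := by omega
    rw [h2]
    simp
  | succ d ih =>
    have h1 := ih (y + 1) (by omega) (by omega)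
    have h2 := cost_step N y (by omega)
    have h3 := incr_le N y hN (by omega)
    have h4 : psi (y + 1) - psi y = 4 * (8 / 9 : ℝ) ^ y := by
      unfold psi
      rw [pow_succ]
      ring
    rw [h2]
    linarith

lemma sk_cast {κ : Type*} (N : Finset κ) (γ : κ → ℕ) (L k : ℕ) :
    (sk N γ L k : ℝ)
      = ∑ l ∈ Finset.range L, ((k - (N.filter fun i => γ i ≤ l).card : ℕ) : ℝ) := by
  unfold sk
  rw [Nat.cast_sum]

lemma sum_cost {κ : Type*} (N : Finset κ) (γ : κ → ℕ) (L : ℕ) :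
    ∑ l ∈ Finset.range L, cost N.card (N.filter fun i => γ i ≤ l).card
      = 5 / 4 * (sk N γ L 4 : ℝ)
        + 3 / 2 * ∑ t ∈ Finset.Ico 2 (N.card / 4 + 1), (1 / 2 : ℝ) ^ t * (sk N γ L (4 * t) : ℝ)
        + 3 / 2 * ((N.card / 4 : ℕ) + 1) * (1 / 2 : ℝ) ^ (N.card / 4)
          * (sk N γ L N.card : ℝ) := by
  unfold cost
  rw [Finset.sum_add_distrib, Finset.sum_add_distrib, ← Finset.mul_sum, ← Finset.mul_sum,
    ← Finset.mul_sum, Finset.sum_comm, sk_cast, sk_cast]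
  congr 3
  apply Finset.sum_congr rfl
  intro t _
  rw [← Finset.mul_sum, sk_cast]

/-- The layer cake. -/
theorem layer {ι κ : Type*} [DecidableEq ι] [DecidableEq κ] (Vs : Finset ι) (Qs : Finset κ)
    (r : ι → κ → Prop) [∀ v i, Decidable (r v i)]
    (h4 : ∀ v ∈ Vs, 4 ≤ (Qs.filter (r v)).card)
    (hsel : ∀ S ⊆ Qs, ∑ v ∈ Vs, (psi (Qs.filter (r v)).card - psi ((Qs \ S).filter (r v)).card)
        ≤ (S.card : ℝ))
    (γ : κ → ℕ) (L : ℕ) (hL : ∀ i ∈ Qs, γ i ≤ L) (W c : ι → ℕ)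
    (h1 : ∑ i ∈ Qs, γ i ≤ 2 * ∑ v ∈ Vs, W v + ∑ v ∈ Vs, c v)
    (h2 : ∀ v ∈ Vs, 4 * W v ≤ sk (Qs.filter (r v)) γ L 4 + c v)
    (h3 : ∀ v ∈ Vs, (c v : ℝ) ≤ 1 / 2 * (sk (Qs.filter (r v)) γ L 4 : ℝ)
      + ∑ t ∈ Finset.Ico 2 ((Qs.filter (r v)).card / 4 + 1),
          (1 / 2 : ℝ) ^ t * (sk (Qs.filter (r v)) γ L (4 * t) : ℝ)
      + (((Qs.filter (r v)).card / 4 : ℕ) + 1) * (1 / 2 : ℝ) ^ ((Qs.filter (r v)).card / 4)
          * (sk (Qs.filter (r v)) γ L (Qs.filter (r v)).card : ℝ)) :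
    ∑ i ∈ Qs, γ i = 0 := by
  have hc : ∀ v ∈ Vs, 2 * (W v : ℝ) + c v ≤ ∑ l ∈ Finset.range L,
      cost (Qs.filter (r v)).card ((Qs.filter (r v)).filter fun i => γ i ≤ l).card := by
    intro v hv
    rw [sum_cost]
    have e2 : 4 * (W v : ℝ) ≤ (sk (Qs.filter (r v)) γ L 4 : ℝ) + c v := by exact_mod_cast h2 v hv
    have e3 := h3 v hv
    linarith
  have hl : ∀ l ∈ Finset.range L, ∑ v ∈ Vs,
      cost (Qs.filter (r v)).card ((Qs.filter (r v)).filter fun i => γ i ≤ l).card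
        ≤ 99 / 100 * ((Qs.filter fun i => l < γ i).card : ℝ) := by
    intro l _
    have e1 := hsel (Qs.filter fun i => l < γ i) (Finset.filter_subset _ _)
    have e2 : ∀ v ∈ Vs, (Qs \ Qs.filter fun i => l < γ i).filter (r v)
        = (Qs.filter (r v)).filter fun i => γ i ≤ l := by
      intro v _
      ext i
      simp only [Finset.mem_filter, Finset.mem_sdiff, not_and, not_lt]
      constructor
      · rintro ⟨⟨ha, hb⟩, hc⟩
        exact ⟨⟨ha, hc⟩, hb ha⟩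
      · rintro ⟨⟨ha, hb⟩, hc⟩
        exact ⟨⟨ha, fun _ => hc⟩, hb⟩
    calc ∑ v ∈ Vs, cost (Qs.filter (r v)).card ((Qs.filter (r v)).filter fun i => γ i ≤ l).card
        ≤ ∑ v ∈ Vs, 99 / 100 * (psi (Qs.filter (r v)).card
            - psi ((Qs \ Qs.filter fun i => l < γ i).filter (r v)).card) := by
          apply Finset.sum_le_sum
          intro v hv
          rw [e2 v hv]
          exact cost_le _ _ (h4 v hv) (Finset.card_le_card (Finset.filter_subset _ _))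
      _ = 99 / 100 * ∑ v ∈ Vs, (psi (Qs.filter (r v)).card
            - psi ((Qs \ Qs.filter fun i => l < γ i).filter (r v)).card) := by
          rw [Finset.mul_sum]
      _ ≤ _ := mul_le_mul_of_nonneg_left e1 (by norm_num)
  have hs := sum_eq_layer Qs γ L hL
  have hs' : ((∑ i ∈ Qs, γ i : ℕ) : ℝ)
      = ∑ l ∈ Finset.range L, ((Qs.filter fun i => l < γ i).card : ℝ) := by
    rw [hs, Nat.cast_sum]
  have h1' : ((∑ i ∈ Qs, γ i : ℕ) : ℝ) ≤ ∑ v ∈ Vs, (2 * (W v : ℝ) + c v) := by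
    rw [Finset.sum_add_distrib, ← Finset.mul_sum]
    exact_mod_cast h1
  have hfin : ((∑ i ∈ Qs, γ i : ℕ) : ℝ) ≤ 99 / 100 * ((∑ i ∈ Qs, γ i : ℕ) : ℝ) := by
    calc ((∑ i ∈ Qs, γ i : ℕ) : ℝ) ≤ ∑ v ∈ Vs, (2 * (W v : ℝ) + c v) := h1'
      _ ≤ ∑ v ∈ Vs, ∑ l ∈ Finset.range L,
            cost (Qs.filter (r v)).card ((Qs.filter (r v)).filter fun i => γ i ≤ l).card :=
          Finset.sum_le_sum hc
      _ = ∑ l ∈ Finset.range L, ∑ v ∈ Vs,
            cost (Qs.filter (r v)).card ((Qs.filter (r v)).filter fun i => γ i ≤ l).card :=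
          Finset.sum_comm
      _ ≤ ∑ l ∈ Finset.range L, 99 / 100 * ((Qs.filter fun i => l < γ i).card : ℝ) :=
          Finset.sum_le_sum hl
      _ = 99 / 100 * ((∑ i ∈ Qs, γ i : ℕ) : ℝ) := by rw [hs', Finset.mul_sum]
  have h0 : ((∑ i ∈ Qs, γ i : ℕ) : ℝ) ≤ 0 := by linarith
  have h0' : (∑ i ∈ Qs, γ i : ℕ) ≤ 0 := by exact_mod_cast h0
  omega

end Pool.Agent.H83.LIN
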