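import Mathlib

/-!
# Selection step of the linear range

We maximise `|Q'| - ∑ psi (number of neighbours in Q') - |V'|` over the closed pairs `(V', Q')`.
-/

set_option autoImplicit false

namespace Pool.Agent.H83.LIN

open Finset

noncomputable def psi (N : ℕ) : ℝ := 36 * (1 - (8 / 9 : ℝ) ^ N)

lemma psi_zero : psi 0 = 0 := by simp [psi]

lemma psi_mono {a b : ℕ} (h : a ≤ b) : psi a ≤ psi b := by
  unfold psi
  have : (8 / 9 : ℝ) ^ b ≤ (8 / 9 : ℝ) ^ a := pow_le_pow_of_le_one (by norm_num) (by norm_num) h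
  linarith

lemma psi_nonneg (a : ℕ) : 0 ≤ psi a := by
  have := psi_mono (Nat.zero_le a)
  rwa [psi_zero] at this

lemma psi_le (a : ℕ) : psi a ≤ 36 := by
  unfold psi
  have : (0 : ℝ) ≤ (8 / 9 : ℝ) ^ a := by positivity
  linarith

lemma psi_small {N : ℕ} (h : psi N + 1 ≤ N) : 4 ≤ N := by
  by_contra hN
  have h3 : N = 0 ∨ N = 1 ∨ N = 2 ∨ N = 3 := by omega
  unfold psi at h
  rcases h3 with rfl | rfl | rfl | rfl <;> norm_num at h

theorem select {ι κ : Type*} [DecidableEq ι] [DecidableEq κ] (Vs : Finset ι) (Qs : Finset κ)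
    (r : ι → κ → Prop) [∀ v i, Decidable (r v i)] (h : 37 * Vs.card < Qs.card) :
    ∃ V2 ⊆ Vs, ∃ Q2 ⊆ Qs, Q2.Nonempty ∧ (∀ v ∈ Vs, v ∉ V2 → ∀ i ∈ Q2, ¬ r v i) ∧
      (∀ v ∈ V2, 4 ≤ (Q2.filter (r v)).card) ∧
      ∀ S ⊆ Q2, ∑ v ∈ V2, (psi (Q2.filter (r v)).card - psi ((Q2 \ S).filter (r v)).card)
        ≤ (S.card : ℝ) := by
  classical
  set Φ : Finset ι × Finset κ → ℝ := fun p =>
    (p.2.card : ℝ) - ∑ v ∈ p.1, psi (p.2.filter (r v)).card - p.1.card with hΦ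
  set C : Finset (Finset ι × Finset κ) := (Vs.powerset ×ˢ Qs.powerset).filter
    fun p => ∀ v ∈ Vs, v ∉ p.1 → ∀ i ∈ p.2, ¬ r v i with hC
  have hmem : ∀ p : Finset ι × Finset κ, p ∈ C ↔
      (p.1 ⊆ Vs ∧ p.2 ⊆ Qs) ∧ ∀ v ∈ Vs, v ∉ p.1 → ∀ i ∈ p.2, ¬ r v i := by
    intro p
    rw [hC, Finset.mem_filter, Finset.mem_product, Finset.mem_powerset, Finset.mem_powerset]
  have h0 : (Vs, Qs) ∈ C := by
    rw [hmem]
    exact ⟨⟨Finset.Subset.refl _, Finset.Subset.refl _⟩, fun v hv hv' => absurd hv hv'⟩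
  obtain ⟨⟨V2, Q2⟩, hp, hmax⟩ := Finset.exists_max_image C Φ ⟨_, h0⟩
  obtain ⟨⟨hV2, hQ2⟩, hcl⟩ := (hmem _).1 hp
  simp only at hV2 hQ2 hcl
  have hpos : 0 < Φ (V2, Q2) := by
    refine lt_of_lt_of_le ?_ (hmax _ h0)
    have h1 : ∑ v ∈ Vs, psi (Qs.filter (r v)).card ≤ Vs.card • (36 : ℝ) :=
      Finset.sum_le_card_nsmul _ _ _ fun v _ => psi_le _
    have h2 : ((37 * Vs.card : ℕ) : ℝ) < (Qs.card : ℝ) := by exact_mod_cast h
    push_cast at h2
    rw [nsmul_eq_mul] at h1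
    simp only [hΦ]
    linarith
  refine ⟨V2, hV2, Q2, hQ2, ?_, hcl, ?_, ?_⟩
  · rw [Finset.nonempty_iff_ne_empty]
    intro hQ
    rw [hQ] at hpos
    simp only [hΦ, Finset.card_empty, Finset.filter_empty, psi_zero, Finset.sum_const_zero] at hpos
    have : (0 : ℝ) ≤ (V2.card : ℝ) := by positivity
    push_cast at hpos
    linarith
  · intro v hv
    apply psi_small
    set Nv := Q2.filter (r v) with hNv
    have hin : (V2.erase v, Q2 \ Nv) ∈ C := by
      rw [hmem]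
      refine ⟨⟨(Finset.erase_subset _ _).trans hV2, Finset.sdiff_subset.trans hQ2⟩, ?_⟩
      intro w hw hw' i hi
      simp only at hw' hi
      rw [Finset.mem_sdiff] at hi
      rw [Finset.mem_erase] at hw'
      by_cases hwv : w = v
      · rw [hwv]
        intro hr
        exact hi.2 (Finset.mem_filter.2 ⟨hi.1, hr⟩)
      · exact hcl w hw (fun h' => hw' ⟨hwv, h'⟩) i hi.1
    have h1 := hmax _ hin
    simp only [hΦ] at h1
    have h2 : ((Q2 \ Nv).card : ℝ) = Q2.card - Nv.card := by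
      rw [Finset.cast_card_sdiff (Finset.filter_subset _ _)]
    have h3 : ((V2.erase v).card : ℝ) = V2.card - 1 := by
      rw [Finset.card_erase_of_mem hv, Nat.cast_sub (Finset.card_pos.2 ⟨v, hv⟩)]
      simp
    have h4 : ∑ w ∈ V2.erase v, psi ((Q2 \ Nv).filter (r w)).card
        ≤ ∑ w ∈ V2.erase v, psi (Q2.filter (r w)).card :=
      Finset.sum_le_sum fun w _ => psi_mono
        (Finset.card_le_card (Finset.filter_subset_filter _ Finset.sdiff_subset))
    have h5 : psi (Q2.filter (r v)).card + ∑ w ∈ V2.erase v, psi (Q2.filter (r w)).card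
        = ∑ w ∈ V2, psi (Q2.filter (r w)).card :=
      Finset.add_sum_erase V2 (fun w => psi (Q2.filter (r w)).card) hv
    rw [← hNv] at h5
    rw [h2, h3] at h1
    linarith
  · intro S hS
    have hin : (V2, Q2 \ S) ∈ C := by
      rw [hmem]
      refine ⟨⟨hV2, Finset.sdiff_subset.trans hQ2⟩, ?_⟩
      intro w hw hw' i hi
      exact hcl w hw hw' i (Finset.mem_sdiff.1 hi).1
    have h1 := hmax _ hin
    simp only [hΦ] at h1
    have h2 : ((Q2 \ S).card : ℝ) = Q2.card - S.card := by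
      rw [Finset.cast_card_sdiff hS]
    rw [Finset.sum_sub_distrib]
    rw [h2] at h1
    linarith

end Pool.Agent.H83.LIN
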