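import Pool.Agent.H83.LIN.Defs

/-! Exact statements of the parts of the linear range (interface only, not imported by the hand-in).
`J` generators, `V ⊆ J`, `Q ⊆ J \ V` blocks; paper: `/team-store/H83_LIN.md`. -/

set_option autoImplicit false

namespace Pool.Agent.H83.LIN.Stubs

open Finset Pool.Agent.H97.GEN Pool.Agent.H83.LIN

variable {α : Type*} [DecidableEq α]

/-! ### Part L1 (steps 1, 2): `LIN/StepA.lean` -/

theorem stepA {J V Q : Finset (Finset α)} (hS : LSetup J V Q) (y : Finset α → α)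
    (hy : ∀ i ∈ Q, y i ∈ i) (hf : ∀ i ∈ Q, fr (FF J V) (y i) ≤ nfr (FF J V) (y i)) :
    ∑ i ∈ Q, gam J V i (y i)
      ≤ 2 * ∑ v ∈ V, (WW J V Q v).card + ∑ v ∈ V, (critL J V Q v).card := sorry

/-! ### Part L2 (step 3): `LIN/StepB.lean` -/

theorem WW_le {J V Q : Finset (Finset α)} (hS : LSetup J V Q) {v : Finset α} (hv : v ∈ V)
    {S : Finset (Finset α)} (hSN : S ⊆ Nb Q v) (x : Finset α → α)
    (hxi : ∀ i ∈ Nb Q v, x i ∈ i) (hxv : ∀ i ∈ Nb Q v, x i ∈ v) :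
    S.card * (WW J V Q v).card ≤ ∑ i ∈ S, gam J V i (x i) + (critL J V Q v).card := sorry

/-- A minimal member of `FF J V` has `gam ≥ 1`. -/
theorem gam_pos {J V Q : Finset (Finset α)} (hS : LSetup J V Q) (hne : (FF J V).Nonempty)
    (hN : ∀ v ∈ V, (Nb Q v).Nonempty) : ∃ i ∈ Q, ∃ x ∈ i, 1 ≤ gam J V i x := sorry

/-! ### Part L3 (step 4): `LIN/StepC.lean` -/

theorem deletion {J V Q : Finset (Finset α)} (hS : LSetup J V Q) {v : Finset α} (hv : v ∈ V)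
    (x : Finset α → α) (hxi : ∀ i ∈ Nb Q v, x i ∈ i) (hxv : ∀ i ∈ Nb Q v, x i ∈ v)
    (t : ℕ) (ht : 1 ≤ t) :
    2 ^ (t - 1) * ((critL J V Q v).filter fun A => tst J V Q v x A = t).card
      ≤ t * ((HH J V Q v x).filter fun A => tst J V Q v x A = t).card := sorry

/-! ### Part L4 (step 5): `LIN/StepD.lean` -/

theorem hard_cover {J V Q : Finset (Finset α)} (hS : LSetup J V Q) {v : Finset α} (hv : v ∈ V)
    (x : Finset α → α) (hxi : ∀ i ∈ Nb Q v, x i ∈ i) (hxv : ∀ i ∈ Nb Q v, x i ∈ v)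
    (t : ℕ) {S : Finset (Finset α)} (hSN : S ⊆ Nb Q v) (hcard : S.card = 4 * t) :
    2 * t * ((FF J V).filter fun A => tst J V Q v x A ≤ t).card ≤ ∑ i ∈ S, gam J V i (x i) := sorry

theorem HH_le {J V Q : Finset (Finset α)} (hS : LSetup J V Q) {v : Finset α}
    (x : Finset α → α) (hxi : ∀ i ∈ Nb Q v, x i ∈ i) :
    (HH J V Q v x).card ≤ ∑ i ∈ Nb Q v, gam J V i (x i) := sorry

/-! ### Part L5 (selection, numerics): `LIN/Select.lean`, `LIN/Numer.lean` -/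

noncomputable def psi (N : ℕ) : ℝ := 36 * (1 - (8 / 9 : ℝ) ^ N)

theorem select {ι κ : Type*} [DecidableEq ι] [DecidableEq κ] (Vs : Finset ι) (Qs : Finset κ)
    (r : ι → κ → Prop) [∀ v i, Decidable (r v i)] (h : 37 * Vs.card < Qs.card) :
    ∃ V2 ⊆ Vs, ∃ Q2 ⊆ Qs, Q2.Nonempty ∧ (∀ v ∈ Vs, v ∉ V2 → ∀ i ∈ Q2, ¬ r v i) ∧
      (∀ v ∈ V2, 4 ≤ (Q2.filter (r v)).card) ∧
      ∀ S ⊆ Q2, ∑ v ∈ V2, (psi (Q2.filter (r v)).card - psi ((Q2 \ S).filter (r v)).card)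
        ≤ (S.card : ℝ) := sorry

/-- The sum of the `k` smallest values (layer cake); `L` is a bound for the values. -/
def sk {κ : Type*} (N : Finset κ) (γ : κ → ℕ) (L k : ℕ) : ℕ :=
  ∑ l ∈ Finset.range L, (k - (N.filter fun i => γ i ≤ l).card)

theorem exists_sk {κ : Type*} [DecidableEq κ] (N : Finset κ) (γ : κ → ℕ) (L k : ℕ)
    (hL : ∀ i ∈ N, γ i ≤ L) (hk : k ≤ N.card) :
    ∃ S ⊆ N, S.card = k ∧ ∑ i ∈ S, γ i ≤ sk N γ L k := sorry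

/-- The cost of `v` at a level. -/
noncomputable def cost (N y : ℕ) : ℝ :=
  5 / 4 * ((4 - y : ℕ) : ℝ)
    + 3 / 2 * ∑ t ∈ Finset.Ico 2 (N / 4 + 1), (1 / 2 : ℝ) ^ t * ((4 * t - y : ℕ) : ℝ)
    + 3 / 2 * ((N / 4 : ℕ) + 1) * (1 / 2 : ℝ) ^ (N / 4) * ((N - y : ℕ) : ℝ)

theorem cost_le (N y : ℕ) (hN : 4 ≤ N) (hy : y ≤ N) :
    cost N y ≤ 99 / 100 * (psi N - psi y) := sorry

/-- The layer cake. -/
theorem layer {ι κ : Type*} [DecidableEq ι] [DecidableEq κ] (Vs : Finset ι) (Qs : Finset κ)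
    (r : ι → κ → Prop) [∀ v i, Decidable (r v i)]
    (h4 : ∀ v ∈ Vs, 4 ≤ (Qs.filter (r v)).card)
    (hsel : ∀ S ⊆ Qs, ∑ v ∈ Vs, (psi (Qs.filter (r v)).card - psi ((Qs \ S).filter (r v)).card)
        ≤ (S.card : ℝ))
    (γ : κ → ℕ) (L : ℕ) (hL : ∀ i ∈ Qs, γ i ≤ L) (W c : ι → ℕ)
    (h1 : ∑ i ∈ Qs, γ i ≤ 2 * ∑ v ∈ Vs, W v + ∑ v ∈ Vs, c v)
    (h2 : ∀ v ∈ Vs, 4 * W v ≤ sk (Qs.filter (r v)) γ L 4 + c v)
    (h3 : ∀ v ∈ Vs, (c v : ℝ) ≤ 1 / 2 * (sk (Qs.filter (r v)) γ L 4 : ℝ)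
      + ∑ t ∈ Finset.Ico 2 ((Qs.filter (r v)).card / 4 + 1),
          (1 / 2 : ℝ) ^ t * (sk (Qs.filter (r v)) γ L (4 * t) : ℝ)
      + (((Qs.filter (r v)).card / 4 : ℕ) + 1) * (1 / 2 : ℝ) ^ ((Qs.filter (r v)).card / 4)
          * (sk (Qs.filter (r v)) γ L (Qs.filter (r v)).card : ℝ)) :
    ∑ i ∈ Qs, γ i = 0 := sorry

/-! ### Part L6 (assembly): `LIN/ThmL.lean` -/

theorem thmL (V Q : Finset (Finset α)) (hVQ : Disjoint V Q) (hne : ∀ G ∈ V ∪ Q, G.Nonempty)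
    (hirr : ∀ G ∈ V, G ∉ unions ((V ∪ Q).erase G))
    (hQ : ∀ G ∈ Q, ∀ G' ∈ Q, G' ≠ G → Disjoint G' G)
    (hcard : 37 * V.card < Q.card) :
    (∃ G ∈ Q, ∀ G' ∈ V ∪ Q, G' ≠ G → Disjoint G' G) ∨
      (∃ x ∈ (V ∪ Q).sup id, (unions (V ∪ Q)).card < 2 * fr (unions (V ∪ Q)) x) := sorry

/-- New numerics for `part1`, `part2'` (replaces `numeric`). -/
theorem numericL (g h m a : ℕ) (hh : 1 ≤ h) (ha : 1 ≤ a)
    (hd : (2 : ℝ) ^ ((g : ℝ) - h / 367) ≤ a)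
    (hp : a ^ 2 * 4 ^ m ≤ 4 ^ g * 3 ^ m) :
    76 * m < h := sorry

end Pool.Agent.H83.LIN.Stubs
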